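import Pool.Agent.H.MP_5f7e36_co.A
import Pool.Agent.H.MP_5f7e36_co.B

namespace Pool.Agent.Results.MP_5f7e36_co.Exact

open Pool.Agent.H.MP_5f7e36_co

theorem result (d : ℕ) (hd : 3 ≤ d) : IsLeast {h : ℕ | ∀ F : Finset (Set (Fin d → ℝ)),
    (∀ B ∈ F, ∃ a b : Fin d → ℝ, (∀ i, a i < b i) ∧ B = {x | ∀ i, a i ≤ x i ∧ x i ≤ b i}) →
    (∀ G ⊆ F, G.card ≤ h → ∃ p v : Fin d → ℝ, v ≠ 0 ∧ ∀ B ∈ G, ∃ t : ℝ, p + t • v ∈ B) →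
    ∃ p v : Fin d → ℝ, v ≠ 0 ∧ ∀ B ∈ F, ∃ t : ℝ, p + t • v ∈ B} (2 ^ (d - 1) * (2 * d - 1)) := by
  refine ⟨fun F hF h => ?_, fun h hh => not_lt.1 fun k => ?_⟩
  · obtain ⟨n, rfl⟩ : ∃ n, d = n + 1 := ⟨d - 1, by omega⟩
    choose! a b hab e using hF
    obtain ⟨p, v, v0, r⟩ := santalo F a b fun G hG hc => by
      obtain ⟨p, v, v0, r⟩ := h G hG (by
        rwa [show 2 * (n + 1) - 1 = 2 * n + 1 by omega, Nat.add_sub_cancel])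
      refine ⟨p, v, v0, fun B hB => ?_⟩
      obtain ⟨t, ht⟩ := r B hB
      rw [e B (hG hB)] at ht
      exact ⟨t, ht⟩
    refine ⟨p, v, v0, fun B hB => ?_⟩
    obtain ⟨t, ht⟩ := r B hB
    exact ⟨t, by rw [e B hB]; exact ht⟩
  · obtain ⟨F, h1, h2, h3⟩ := sharp d hd
    exact h3 (hh F h1 fun G hG hc => h2 G hG (hc.trans_lt k))

end Pool.Agent.Results.MP_5f7e36_co.Exact
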